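import Pool.Agent.W830.RD.Stm

/-!
# Project RD (MP_54f573_pr): gaps between posts
-/

set_option autoImplicit false

namespace Pool.Agent.W32.RD.Post

open Finset Filter Topology
open Pool.Agent.W830.RD
open scoped Classical

/-- deterministic part -/
theorem gap_of (hG : S_LPG) {n L R c l : ℕ} (E : Finset (Fin n × Fin n)) (hE : E ⊆ Om n)
    (hR : 1 ≤ R) (hc : R * (2 * L + 1) ≤ c * l ^ 2) (hFar : Far L E)
    (hP : ∀ v ∈ (range n).filter (fun v => v + R * (2 * L + 1) ≤ n),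
      ∃ i < R, LPost L E (v + i * (2 * L + 1) + L)) : Gap (c * l ^ 2) E := by
  intro v hv
  have h1 : v + R * (2 * L + 1) ≤ n := by omega
  have h2 : 1 * 1 ≤ R * (2 * L + 1) := Nat.mul_le_mul hR (by omega)
  have h3 : v < n := by omega
  obtain ⟨i, hi, hLP⟩ := hP v (mem_filter.2 ⟨mem_range.2 h3, h1⟩)
  have h4 : (i + 1) * (2 * L + 1) ≤ R * (2 * L + 1) := Nat.mul_le_mul_right _ hi
  have h5 : (i + 1) * (2 * L + 1) = i * (2 * L + 1) + (2 * L + 1) := by ring
  have h6 : v + i * (2 * L + 1) + L < n := by omega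
  refine ⟨⟨v + i * (2 * L + 1) + L, h6⟩, ?_, ?_, hG n L E _ hE hFar hLP⟩
  · simp only
    omega
  · simp only
    omega

theorem pow_bd {x : ℝ} (hx0 : 0 ≤ x) (hx1 : x ≤ 1) {k c l : ℕ} (hc : (k : ℝ) ≤ x * c) {n : ℕ}
    (hn : 1 ≤ n) (hl : Real.log n ≤ l) : (1 - x) ^ (c * l) * (n : ℝ) ^ k ≤ 1 := by
  have hn0 : (0 : ℝ) < n := by exact_mod_cast hn
  have h1 : (1 - x) ^ (c * l) ≤ Real.exp (-((k : ℝ) * Real.log n)) := by
    calc (1 - x) ^ (c * l) ≤ (Real.exp (-x)) ^ (c * l) :=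
          pow_le_pow_left₀ (by linarith) (Real.one_sub_le_exp_neg x) _
      _ = Real.exp (-(x * c * l)) := by
          rw [← Real.exp_nat_mul]
          congr 1
          push_cast
          ring
      _ ≤ Real.exp (-((k : ℝ) * Real.log n)) := by
          apply Real.exp_le_exp.2
          have hlog : 0 ≤ Real.log n := Real.log_nonneg (by exact_mod_cast hn)
          have h2 : (k : ℝ) * Real.log n ≤ (x * c) * l :=
            mul_le_mul hc hl hlog (le_trans (Nat.cast_nonneg k) hc)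
          linarith
  have h3 : (n : ℝ) ^ k = Real.exp ((k : ℝ) * Real.log n) := by
    rw [Real.exp_nat_mul, Real.exp_log hn0]
  rw [h3]
  calc (1 - x) ^ (c * l) * Real.exp ((k : ℝ) * Real.log n)
      ≤ Real.exp (-((k : ℝ) * Real.log n)) * Real.exp ((k : ℝ) * Real.log n) :=
        mul_le_mul_of_nonneg_right h1 (Real.exp_nonneg _)
    _ = 1 := by rw [← Real.exp_add, neg_add_cancel, Real.exp_zero]

theorem main (hB : S_PBAS) (hG : S_LPG) (hF : S_FARP) (hL : S_LPP) (hW : S_WIN) : S_POST := by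
  intro p hp0 hp1
  obtain ⟨κ, hκ0, hκ1, hκ⟩ := hL p hp0 hp1
  set c1 : ℕ := ⌈3 / p⌉₊ with hc1
  set c2 : ℕ := ⌈2 / κ⌉₊ with hc2
  have hc1' : (3 : ℝ) ≤ p * c1 := by
    have h := Nat.le_ceil (3 / p)
    rw [div_le_iff₀ hp0] at h
    rw [mul_comm]; exact h
  have hc2' : (2 : ℝ) ≤ κ * c2 := by
    have h := Nat.le_ceil (2 / κ)
    rw [div_le_iff₀ hκ0] at h
    rw [mul_comm]; exact h
  have hc2p : 1 ≤ c2 := Nat.one_le_ceil_iff.2 (by positivity)
  refine ⟨c2 * (2 * c1 + 1), Nat.mul_pos hc2p (by omega), ?_⟩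
  -- the main bound
  have hbd : ∀ n : ℕ, 1 ≤ n →
      1 - 3 / (n : ℝ) ≤ Pr p n (fun E => Gap (c2 * (2 * c1 + 1) * (⌈Real.log n⌉₊ + 1) ^ 2) E) ∧
      Pr p n (fun E => Gap (c2 * (2 * c1 + 1) * (⌈Real.log n⌉₊ + 1) ^ 2) E) ≤ 1 := by
    intro n hn
    obtain ⟨-, b2, b3, b4, b5, b6⟩ := hB p n hp0 hp1
    have hn0 : (0 : ℝ) < n := by exact_mod_cast hn
    set l : ℕ := ⌈Real.log n⌉₊ + 1 with hl
    have hl1 : 1 ≤ l := by omega
    have hll : Real.log n ≤ l := by
      have h := Nat.le_ceil (Real.log n)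
      rw [hl]; push_cast; linarith
    set L : ℕ := c1 * l with hLd
    set R : ℕ := c2 * l with hRd
    have hR1 : 1 ≤ R := Nat.mul_pos hc2p hl1
    have hcc : R * (2 * L + 1) ≤ c2 * (2 * c1 + 1) * l ^ 2 := by
      rw [hRd, hLd]
      calc c2 * l * (2 * (c1 * l) + 1) ≤ c2 * l * (2 * (c1 * l) + l) :=
            Nat.mul_le_mul_left _ (by omega)
        _ = c2 * (2 * c1 + 1) * l ^ 2 := by ring
    have e1 := b5 (fun E => Gap (c2 * (2 * c1 + 1) * l ^ 2) E)
    have hn1 : Pr p n (fun E => ¬ Gap (c2 * (2 * c1 + 1) * l ^ 2) E) ≤ 3 / n := by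
      have s1 : Pr p n (fun E => ¬ Gap (c2 * (2 * c1 + 1) * l ^ 2) E) ≤
          Pr p n (fun E => ¬ Far L E ∨
            ∃ v ∈ (range n).filter (fun v => v + R * (2 * L + 1) ≤ n),
              ∀ i < R, ¬ LPost L E (v + i * (2 * L + 1) + L)) := by
        refine b3 _ _ fun E hE hng => ?_
        by_contra hcon
        push Not at hcon
        obtain ⟨hf, hp⟩ := hcon
        exact hng (gap_of hG E hE hR1 hcc hf hp)
      have s2 := b4 (fun E => ¬ Far L E) (fun E =>
            ∃ v ∈ (range n).filter (fun v => v + R * (2 * L + 1) ≤ n),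
              ∀ i < R, ¬ LPost L E (v + i * (2 * L + 1) + L))
      have s3 := b6 ℕ ((range n).filter (fun v => v + R * (2 * L + 1) ≤ n))
        (fun v E => ∀ i < R, ¬ LPost L E (v + i * (2 * L + 1) + L))
      have s4 : ∑ v ∈ (range n).filter (fun v => v + R * (2 * L + 1) ≤ n),
          Pr p n (fun E => ∀ i < R, ¬ LPost L E (v + i * (2 * L + 1) + L)) ≤
          n * (1 - κ) ^ R := by
        have hk0 : 0 ≤ (1 - κ) ^ R := pow_nonneg (by linarith) _
        calc _ ≤ ∑ v ∈ (range n).filter (fun v => v + R * (2 * L + 1) ≤ n), (1 - κ) ^ R :=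
              sum_le_sum fun v hv => hW p κ hp0 hp1 hκ0 hκ1 hκ n L R v (mem_filter.1 hv).2
          _ = (((range n).filter (fun v => v + R * (2 * L + 1) ≤ n)).card : ℝ) * (1 - κ) ^ R := by
              rw [sum_const, nsmul_eq_mul]
          _ ≤ n * (1 - κ) ^ R := by
              refine mul_le_mul_of_nonneg_right ?_ hk0
              have : ((range n).filter (fun v => v + R * (2 * L + 1) ≤ n)).card ≤ n := by
                calc _ ≤ (range n).card := card_filter_le _ _
                  _ = n := card_range n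
              exact_mod_cast this
      have s5 := hF p n L hp0 hp1
      have s6 : (1 - p) ^ L * (n : ℝ) ^ 3 ≤ 1 :=
        pow_bd hp0.le hp1.le (k := 3) (by exact_mod_cast hc1') hn hll
      have s7 : (1 - κ) ^ R * (n : ℝ) ^ 2 ≤ 1 :=
        pow_bd hκ0.le hκ1 (k := 2) (by exact_mod_cast hc2') hn hll
      have s8 : 2 * (n : ℝ) ^ 2 * (1 - p) ^ L ≤ 2 / n := by
        rw [le_div_iff₀ hn0]
        nlinarith
      have s9 : (n : ℝ) * (1 - κ) ^ R ≤ 1 / n := by
        rw [le_div_iff₀ hn0]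
        nlinarith
      have s10 : (2 : ℝ) / n + 1 / n = 3 / n := by
        rw [← add_div]; norm_num
      linarith
    have hge := b2 (fun E => ¬ Gap (c2 * (2 * c1 + 1) * l ^ 2) E)
    constructor <;> linarith
  have ht : Tendsto (fun n : ℕ => 1 - 3 / (n : ℝ)) atTop (𝓝 1) := by
    have h := (tendsto_const_div_atTop_nhds_zero_nat (3 : ℝ)).const_sub 1
    rwa [sub_zero] at h
  refine tendsto_of_tendsto_of_tendsto_of_le_of_le' ht tendsto_const_nhds ?_ ?_
  · filter_upwards [eventually_ge_atTop 1] with n hn using (hbd n hn).1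
  · filter_upwards [eventually_ge_atTop 1] with n hn using (hbd n hn).2

end Pool.Agent.W32.RD.Post
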